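import Mathlib
import Pool.Agent.Run7.h452.R.Fin
import Pool.Agent.Run7.h452.Fin1

/-!
# Regular word equations with length constraints

For every alphabet with at least two letters there is no algorithm which decides, for every
regular word equation and every finite set of linear constraints on the lengths of its variables,
whether some solution of the equation satisfies the constraints.
-/

set_option autoImplicit false

namespace Pool.Agent.Results.MP_34d7b7_lc.RegularUndecidable

/-- A word over the alphabet `Fin k` and the variables `x_0, x_1, ...`. The symbol `Sum.inl a` is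
the letter `a`, the symbol `Sum.inr j` is the variable `x_j`. -/
abbrev Word (k : ℕ) : Type := List (Fin k ⊕ ℕ)

/-- The image of a word under the morphism which fixes the letters and sends `x_j` to `h j`. -/
def image {k : ℕ} (h : ℕ → List (Fin k)) (w : Word k) : List (Fin k) :=
  w.flatMap (Sum.elim (fun a => [a]) h)

/-- The variables of a word, in the order of their occurrences and with repetitions. -/
def varList {k : ℕ} (w : Word k) : List ℕ := w.filterMap Sum.getRight?

/-- The word equation `U = V` is regular: every variable occurs at most once in `U` and at most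
once in `V`. -/
def Regular {k : ℕ} (U V : Word k) : Prop := (varList U).Nodup ∧ (varList V).Nodup

/-- A linear constraint `(b, l, d)` on the lengths of the variables. It stands for
`∑ c * |x_j| = d` if `b` is true and for `∑ c * |x_j| ≤ d` if `b` is false, the sum over the
entries `(j, c)` of the list `l`. -/
abbrev LenCon : Type := Bool × List (ℕ × ℤ) × ℤ

/-- The constraint holds for the lengths `ℓ j` of the `x_j`. -/
def LenCon.Holds (ℓ : ℕ → ℕ) (c : LenCon) : Prop :=
  if c.1 = true then (c.2.1.map fun p => p.2 * (ℓ p.1 : ℤ)).sum = c.2.2
  else (c.2.1.map fun p => p.2 * (ℓ p.1 : ℤ)).sum ≤ c.2.2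

/-- The inputs: a word equation and a finite list of length constraints. -/
abbrev Input (k : ℕ) : Type := (Word k × Word k) × List LenCon

/-- The equation is regular and the length constraints are constraints on its variables. -/
def Valid {k : ℕ} (I : Input k) : Prop :=
  Regular I.1.1 I.1.2 ∧ ∀ c ∈ I.2, ∀ p ∈ c.2.1, Sum.inr p.1 ∈ I.1.1 ∨ Sum.inr p.1 ∈ I.1.2

/-- Some solution of the equation satisfies all length constraints. Variables may be sent to the
empty word. -/
def Solvable {k : ℕ} (I : Input k) : Prop :=
  ∃ h : ℕ → List (Fin k), image h I.1.1 = image h I.1.2 ∧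
    ∀ c ∈ I.2, LenCon.Holds (fun j => (h j).length) c

/-- For every alphabet with `k ≥ 2` letters the satisfiability problem for regular word equations
with length constraints is undecidable: no computable function answers it correctly on all valid
inputs. -/
theorem result : ∀ k : ℕ, 2 ≤ k → ¬ ∃ d : Input k → Bool, Computable d ∧
    ∀ I : Input k, Valid I → (d I = true ↔ Solvable I) := by
  rintro k hk ⟨d, hd, hI⟩
  obtain ⟨p, hp, hn⟩ := Run7.h452.exists_re
  obtain ⟨U, V, L, P, hU, hV, hP, -, hL, hS⟩ := Run7.h452.R.reg_re k hk hp
  let f : ℕ → Input k := fun n => ((U, V), (true, [(P, 1)], (n : ℤ)) ::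
    L.map (fun l => (true, l.1, l.2)))
  have hf : Computable f := by
    apply Primrec.to_comp
    refine Primrec.pair (Primrec.const (U, V)) (Primrec.list_cons.comp ?_ (Primrec.const _))
    refine Primrec.pair (Primrec.const true) (Primrec.pair (Primrec.const _) ?_)
    rw [← Primrec.encode_iff]
    have : (fun n : ℕ => Encodable.encode (n : ℤ)) = fun n => 2 * n := by
      funext n
      rfl
    rw [this]
    exact Primrec.nat_mul.comp (Primrec.const 2) Primrec.id
  apply hn
  rw [ComputablePred.computable_iff]
  refine ⟨fun n => d (f n), hd.comp hf, ?_⟩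
  funext n
  rw [eq_iff_iff, hS n, hI (f n)]
  · unfold Solvable
    constructor
    · rintro ⟨h, h1, h2, h3⟩
      refine ⟨h, h1, ?_⟩
      intro c hc
      rcases List.mem_cons.1 hc with rfl | hc
      · simp [LenCon.Holds, h3]
      · obtain ⟨l, hl, rfl⟩ := List.mem_map.1 hc
        have := h2 l hl
        simpa [LenCon.Holds, Run7.h452.LHolds] using this
    · rintro ⟨h, h1, h2⟩
      refine ⟨h, h1, ?_, ?_⟩
      · intro l hl
        have := h2 _ (List.mem_cons_of_mem _ (List.mem_map_of_mem
          (f := fun l : List (ℕ × ℤ) × ℤ => ((true, l.1, l.2) : LenCon)) hl))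
        simpa [LenCon.Holds, Run7.h452.LHolds] using this
      · have := h2 _ List.mem_cons_self
        simp [LenCon.Holds] at this
        exact this
  · refine ⟨⟨hU, hV⟩, ?_⟩
    intro c hc q hq
    rcases List.mem_cons.1 hc with rfl | hc
    · simp only [List.mem_singleton] at hq
      subst hq
      exact Or.inl hP
    · obtain ⟨l, hl, rfl⟩ := List.mem_map.1 hc
      exact Or.inl (hL l hl q hq).1

end Pool.Agent.Results.MP_34d7b7_lc.RegularUndecidable
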